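import Pool.Agent.Helper12.RQ.Polar

/-!
# Packet 2340: the distance function of a continuous metric
-/

set_option autoImplicit false

open MeasureTheory Set Filter Topology Metric

open scoped ENNReal NNReal ContDiff

namespace Pool.Agent.Helper89.RQ

open Pool.Agent.Helper12.RQ

variable {n : ℕ}

/-- the distance to `F` in the metric `ρ` -/
noncomputable def cdist (ρ : E n → ℝ≥0∞) (F : Set (E n)) (y : E n) : ℝ≥0∞ :=
  ⨅ (γ : Curve n) (_ : γ.toFun γ.a = y ∧ γ.toFun γ.b ∈ F), γ.lineInt ρ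

/-- prepend the segment from `y` to the starting point of `γ` -/
noncomputable def prep (γ : Curve n) (y : E n) : Curve n where
  a := γ.a - 1
  b := γ.b
  lt := by have := γ.lt; linarith
  toFun := fun t => γ.toFun (max t γ.a) + (min t γ.a - γ.a) • (γ.toFun γ.a - y)
  lip := by
    obtain ⟨K, hK⟩ := γ.lip
    have h1 : LipschitzWith 1 (fun t : ℝ => max t γ.a) := LipschitzWith.id.max_const γ.a
    have h2 : LipschitzWith 1 (fun t : ℝ => min t γ.a) := LipschitzWith.id.min_const γ.a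
    have h3 : LipschitzWith ‖γ.toFun γ.a - y‖₊
        (fun t : ℝ => (min t γ.a - γ.a) • (γ.toFun γ.a - y)) := by
      refine LipschitzWith.of_dist_le_mul fun s t => ?_
      rw [dist_eq_norm, ← sub_smul, norm_smul, sub_sub_sub_cancel_right]
      have := h2.dist_le_mul s t
      rw [Real.dist_eq] at this
      rw [Real.norm_eq_abs, mul_comm]
      refine mul_le_mul_of_nonneg_left ?_ (by positivity)
      simpa using this
    exact ⟨K * 1 + ‖γ.toFun γ.a - y‖₊, (hK.comp h1).add h3⟩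

theorem prep_start (γ : Curve n) (y : E n) : (prep γ y).toFun (prep γ y).a = y := by
  show γ.toFun (max (γ.a - 1) γ.a) + (min (γ.a - 1) γ.a - γ.a) • (γ.toFun γ.a - y) = y
  rw [max_eq_right (by linarith), min_eq_left (by linarith)]
  simp

theorem prep_end (γ : Curve n) (y : E n) : (prep γ y).toFun (prep γ y).b = γ.toFun γ.b := by
  show γ.toFun (max γ.b γ.a) + (min γ.b γ.a - γ.a) • (γ.toFun γ.a - y) = γ.toFun γ.b
  rw [max_eq_left γ.lt.le, min_eq_right γ.lt.le]
  simp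

theorem prep_lineInt (γ : Curve n) (y : E n) (ρ₁ : E n → ℝ) (S : ℝ)
    (hS : ∀ z ∈ segment ℝ y (γ.toFun γ.a), ρ₁ z ≤ S) :
    (prep γ y).lineInt (fun x => ENNReal.ofReal (ρ₁ x)) ≤
      ENNReal.ofReal S * ‖γ.toFun γ.a - y‖ₑ + γ.lineInt (fun x => ENNReal.ofReal (ρ₁ x)) := by
  have hab := γ.lt
  set g := (prep γ y).toFun with hg
  have hgd : ∀ t, g t = γ.toFun (max t γ.a) + (min t γ.a - γ.a) • (γ.toFun γ.a - y) :=
    fun t => rfl
  unfold Curve.lineInt
  have hsub : Icc (prep γ y).a (prep γ y).b ⊆ Icc (γ.a - 1) γ.a ∪ Icc γ.a γ.b := by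
    intro t ht
    rcases le_total t γ.a with h | h
    · exact Or.inl ⟨ht.1, h⟩
    · exact Or.inr ⟨h, ht.2⟩
  refine (lintegral_mono_set hsub).trans ((lintegral_union_le _ _ _).trans ?_)
  refine add_le_add ?_ ?_
  · rw [← restrict_Ioo_eq_restrict_Icc]
    calc ∫⁻ t in Ioo (γ.a - 1) γ.a, ENNReal.ofReal (ρ₁ (g t)) * ‖deriv g t‖ₑ
        ≤ ∫⁻ t in Ioo (γ.a - 1) γ.a, ENNReal.ofReal S * ‖γ.toFun γ.a - y‖ₑ := by
          refine setLIntegral_mono' measurableSet_Ioo fun t ht => ?_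
          have hgt : g =ᶠ[𝓝 t] fun s => γ.toFun γ.a + (s - γ.a) • (γ.toFun γ.a - y) := by
            filter_upwards [Iio_mem_nhds ht.2] with s hs
            rw [hgd, max_eq_right (le_of_lt hs), min_eq_left (le_of_lt hs)]
          have hd : deriv g t = γ.toFun γ.a - y := by
            rw [hgt.deriv_eq]
            have h0 : HasDerivAt (fun s : ℝ => γ.toFun γ.a + (s - γ.a) • (γ.toFun γ.a - y))
                ((1 : ℝ) • (γ.toFun γ.a - y)) t :=
              (((hasDerivAt_id t).sub_const γ.a).smul_const (γ.toFun γ.a - y)).const_add _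
            rw [h0.deriv, one_smul]
          rw [hd]
          gcongr
          apply hS
          rw [hgt.eq_of_nhds]
          refine ⟨γ.a - t, 1 - (γ.a - t), by linarith [ht.2], by linarith [ht.1], by ring, ?_⟩
          module
      _ = ENNReal.ofReal S * ‖γ.toFun γ.a - y‖ₑ := by
          rw [setLIntegral_const]
          simp
  · rw [← restrict_Ioo_eq_restrict_Icc]
    refine le_of_eq (setLIntegral_congr_fun measurableSet_Ioo fun t ht => ?_)
    have hgt : g =ᶠ[𝓝 t] γ.toFun := by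
      filter_upwards [Ioi_mem_nhds ht.1] with s hs
      rw [hgd, max_eq_left (le_of_lt hs), min_eq_right (le_of_lt hs)]
      simp
    have e1 : (prep γ y).toFun t = γ.toFun t := hgt.eq_of_nhds
    have e2 : deriv (prep γ y).toFun t = deriv γ.toFun t := hgt.deriv_eq
    simp only [e1, e2]

theorem cdist_le (ρ₁ : E n → ℝ) (F : Set (E n)) (y y' : E n) (S : ℝ)
    (hS : ∀ z ∈ segment ℝ y y', ρ₁ z ≤ S) :
    cdist (fun x => ENNReal.ofReal (ρ₁ x)) F y ≤
      ENNReal.ofReal S * ‖y' - y‖ₑ + cdist (fun x => ENNReal.ofReal (ρ₁ x)) F y' := by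
  unfold cdist
  rw [ENNReal.add_iInf]
  refine le_iInf fun γ => ?_
  by_cases hγ : γ.toFun γ.a = y' ∧ γ.toFun γ.b ∈ F
  · rw [iInf_pos hγ]
    have hend : (prep γ y).toFun (prep γ y).b ∈ F := by rw [prep_end]; exact hγ.2
    refine (iInf₂_le (prep γ y) ⟨prep_start γ y, hend⟩).trans ?_
    have := prep_lineInt γ y ρ₁ S (by rw [hγ.1]; exact hS)
    rwa [hγ.1] at this
  · rw [iInf_neg hγ]
    simp

/-- the truncated distance -/
noncomputable def ud (ρ₁ : E n → ℝ) (F : Set (E n)) (y : E n) : ℝ :=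
  (min 1 (cdist (fun x => ENNReal.ofReal (ρ₁ x)) F y)).toReal

theorem ud_le (ρ₁ : E n → ℝ) (F : Set (E n)) (y y' : E n) (S : ℝ) (hS0 : 0 ≤ S)
    (hS : ∀ z ∈ segment ℝ y y', ρ₁ z ≤ S) : ud ρ₁ F y ≤ S * ‖y - y'‖ + ud ρ₁ F y' := by
  unfold ud
  set c := cdist (fun x => ENNReal.ofReal (ρ₁ x)) F y with hc
  set c' := cdist (fun x => ENNReal.ofReal (ρ₁ x)) F y' with hc'
  have h1 : c ≤ ENNReal.ofReal (S * ‖y - y'‖) + c' := by
    have := cdist_le ρ₁ F y y' S hS
    rw [← ofReal_norm, ← ENNReal.ofReal_mul hS0, norm_sub_rev] at this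
    exact this
  have h2 : min 1 c ≤ ENNReal.ofReal (S * ‖y - y'‖) + min 1 c' := by
    rcases le_total 1 c' with h | h
    · rw [min_eq_left h]
      exact (min_le_left _ _).trans le_add_self
    · rw [min_eq_right h]
      exact (min_le_right _ _).trans h1
  have h3 : min 1 c' ≠ ⊤ := ne_top_of_le_ne_top ENNReal.one_ne_top (min_le_left _ _)
  have h4 := ENNReal.toReal_mono (ENNReal.add_ne_top.2 ⟨ENNReal.ofReal_ne_top, h3⟩) h2
  rwa [ENNReal.toReal_add ENNReal.ofReal_ne_top h3,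
    ENNReal.toReal_ofReal (by positivity)] at h4

theorem abs_ud_le (ρ₁ : E n → ℝ) (F : Set (E n)) (y y' : E n) (S : ℝ) (hS0 : 0 ≤ S)
    (hS : ∀ z ∈ segment ℝ y y', ρ₁ z ≤ S) : |ud ρ₁ F y - ud ρ₁ F y'| ≤ S * ‖y - y'‖ := by
  rw [abs_le]
  constructor
  · have := ud_le ρ₁ F y' y S hS0 (by rw [segment_symm]; exact hS)
    rw [norm_sub_rev] at this
    linarith
  · have := ud_le ρ₁ F y y' S hS0 hS
    linarith

theorem mc2 : StmtMC2 := by
  intro n p hp ρ₁ hρ hB K F hKF
  obtain ⟨B, hB⟩ := hB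
  refine ⟨ud ρ₁ F, ?_, ?_, ?_, ?_, ?_⟩
  · have hB0 : 0 ≤ B := (hB 0).1.trans (hB 0).2
    refine ⟨⟨B, hB0⟩, LipschitzWith.of_dist_le_mul fun y y' => ?_⟩
    rw [Real.dist_eq, dist_eq_norm]
    exact abs_ud_le ρ₁ F y y' B hB0 fun z _ => (hB z).2
  · intro x
    refine ⟨ENNReal.toReal_nonneg, ?_⟩
    have := ENNReal.toReal_mono ENNReal.one_ne_top
      (min_le_left 1 (cdist (fun x => ENNReal.ofReal (ρ₁ x)) F x))
    simpa [ud] using this
  · intro x hx
    have h1 : 1 ≤ cdist (fun x => ENNReal.ofReal (ρ₁ x)) F x := by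
      refine le_iInf fun γ => le_iInf fun hγ => ?_
      exact hKF γ (by rw [hγ.1]; exact hx) hγ.2
    unfold ud
    rw [min_eq_left h1]
    simp
  · intro x hx
    have h1 : cdist (fun x => ENNReal.ofReal (ρ₁ x)) F x = 0 := by
      refine le_antisymm ?_ bot_le
      refine (iInf₂_le (⟨0, 1, zero_lt_one, fun _ => x, 0, LipschitzWith.const x⟩ : Curve n)
        ⟨rfl, hx⟩).trans ?_
      unfold Curve.lineInt
      simp
    unfold ud
    rw [h1]
    simp
  · unfold en
    refine lintegral_mono fun x => ?_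
    refine ENNReal.rpow_le_rpow ?_ hp.le
    rw [← ofReal_norm]
    refine ENNReal.ofReal_le_ofReal ?_
    refine le_of_forall_pos_le_add fun ε hε => ?_
    have h0 : 0 ≤ ρ₁ x + ε := by linarith [(hB x).1]
    refine norm_fderiv_le_of_lip' ℝ h0 ?_
    have h1 : ∀ᶠ z in 𝓝 x, ρ₁ z < ρ₁ x + ε :=
      hρ.continuousAt.eventually (Iio_mem_nhds (by linarith))
    obtain ⟨r, hr, hball⟩ := Metric.eventually_nhds_iff_ball.1 h1
    filter_upwards [Metric.ball_mem_nhds x hr] with y hy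
    rw [Real.norm_eq_abs]
    refine abs_ud_le ρ₁ F y x (ρ₁ x + ε) h0 fun z hz => ?_
    refine (hball z ?_).le
    exact (convex_ball x r).segment_subset hy (Metric.mem_ball_self hr) hz

end Pool.Agent.Helper89.RQ
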